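import Pool.Agent.Lib.MP_69a707_lc.MQ6

/-!
# MP_69a707_lc: an inner model of ZFC + GCH in which the relation of Q1 holds

The model is `L[A]` for a set `A` of countable ordinals with `ω₁^{L[A]} = ω₁`. It is a transitive
class containing all ordinals, satisfies ZFC and the generalized continuum hypothesis, and in it
`ℵ_{ω_{ω+1}+1} ↛ (ℵ_{ω_{ω+1}}, (4)_{ℵ₀})³`.
-/

open Pool.Agent.Lib.MP_7295f2_lc Pool.Agent.Lib.MP_7295f2_lc.LA Pool.Agent.Lib.MP_69a707_lc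
  Pool.Agent.Lib.MP_69a707_lc.MQ

namespace Pool.Agent.Results.MP_69a707_lc.ModelNegative

/-- The ordinals of the model are the von Neumann ordinals. -/
theorem oz_val {A : Ord → Ord → Ord → Prop} (α : Ord) : (oz A α).1 = α.toZFSet := by
  induction α using WellFoundedLT.induction with
  | ind α ih =>
    ext z
    rw [Ordinal.mem_toZFSet_iff]
    constructor
    · intro hz
      obtain ⟨w, hw, rfl⟩ := mem_KK.mp hz
      have h1 : EE A (km A w) (oz A α) := hz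
      obtain ⟨β, hβ, h⟩ := mem_oz.mp h1
      refine ⟨β, hβ, ?_⟩
      rw [← ih β hβ, ← h]
      rfl
    · rintro ⟨β, hβ, rfl⟩
      rw [← ih β hβ]
      exact mem_oz.mpr ⟨β, hβ, rfl⟩

/-- There is an inner model of ZFC + GCH in which `κ⁺ → (κ, (4)_{ℵ₀})³` fails for
`κ = ℵ_{ω_{ω+1}}`. -/
theorem result : ∃ N : Set ZFSet.{0}, IsInnerClass N ∧ ModelsZFC (MemOn N) ∧ GCH (MemOn N) ∧
    ∃ w w' θ κ κ', IsAleph (MemOn N) 0 w ∧ IsSucc (MemOn N) w w' ∧ IsAlephOf (MemOn N) w' θ ∧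
      IsAlephOf (MemOn N) θ κ ∧ IsSuccCard (MemOn N) κ κ' ∧ ¬ Arrow3 (MemOn N) κ' κ w := by
  refine ⟨{z | ∃ x, KK Af x = z}, ⟨?_, ?_⟩, main_model⟩
  · rintro _ ⟨x, rfl⟩ y hy
    obtain ⟨w, _, rfl⟩ := mem_KK.mp hy
    exact ⟨w, rfl⟩
  · intro α
    rw [← oz_val (A := Af) α]
    exact (oz Af α).2

end Pool.Agent.Results.MP_69a707_lc.ModelNegative
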