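import Mathlib
import Pool.Agent.Lib.MP_69a707_lc.Basic

/-!
# `κ⁺ ↛ (κ, ℵ₀, (4)_{ℵ₀})³` for `κ = ℵ_{ω_{ω+1}}`
-/

open Cardinal Set Pool.Agent.Lib.MP_69a707_lc

namespace Pool.Agent.Results.MP_69a707_lc.OneInfiniteClass

/-- If `2^{ℵ_ω} = ℵ_{ω+1}` (in particular under GCH) then `κ⁺ ↛ (κ, ℵ₀, (4)_{ℵ₀})³` for
`κ = ℵ_{ω_{ω+1}}`. -/
theorem result
    (hpow : (2 : Cardinal.{0}) ^ aleph Ordinal.omega0.{0} = aleph (Ordinal.omega0.{0} + 1)) :
    ∃ α : Type, #α = aleph ((aleph (Ordinal.omega0 + 1)).ord + 1) ∧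
      ∃ col : Finset α → Option ℕ,
        (∀ H : Set α, #H = aleph (aleph (Ordinal.omega0 + 1)).ord →
          ¬ ∀ s : Finset α, s.card = 3 → (↑s : Set α) ⊆ H → col s = none) ∧
        (∀ H : Set α, H.Infinite →
          ¬ ∀ s : Finset α, s.card = 3 → (↑s : Set α) ⊆ H → col s = some 1) ∧
        (∀ n : ℕ, n ≠ 1 → ∀ H : Finset α, H.card = 4 →
          ¬ ∀ s : Finset α, s.card = 3 → s ⊆ H → col s = some n) := by
  classical
  set Θ : Ordinal.{0} := (aleph (Ordinal.omega0.{0} + 1)).ord with hΘdef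
  obtain ⟨hΘlim, -, -⟩ := theta_facts
  rw [← hΘdef] at hΘlim
  obtain ⟨g, hg1, hg2⟩ := exists_ordinalColouring hpow
  rw [← hΘdef] at hg2
  have hcof := theta_cof
  rw [← hΘdef] at hcof
  obtain ⟨h, h1, h2⟩ := exists_level hΘlim
  refine ⟨(Order.succ (aleph Θ)).ord.ToType, ?_, ?_⟩
  · rw [mk_ord_toType, succ_aleph]
  have htri : ∀ a b c : (Order.succ (aleph Θ)).ord.ToType, a < b → b < c → ∀ S : Set _,
      a ∈ S → b ∈ S → c ∈ S →
      (({a, b, c} : Finset (Order.succ (aleph Θ)).ord.ToType) : Set _) ⊆ S := by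
    intro a b c _ _ S ha hb hc t ht
    simp only [Finset.coe_insert, Finset.coe_singleton, mem_insert_iff, mem_singleton_iff] at ht
    rcases ht with rfl | rfl | rfl
    · exact ha
    · exact hb
    · exact hc
  refine ⟨Pool.Agent.Lib.MP_69a707_lc.col (td g h), ?_, ?_, ?_⟩
  · intro H hH hcol
    obtain ⟨x, hx1, hx2⟩ := exists_enum H hH
    have hF : ∀ ξ η ρ, ξ < η → η < ρ → ρ < (aleph Θ).ord → td g h (x ξ) (x η) (x ρ) = 0 := by
      intro ξ η ρ hξη hηρ hρ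
      have hη := hηρ.trans hρ
      obtain ⟨a, ha, ea⟩ := hx2 ξ (hξη.trans hη)
      obtain ⟨b, hb, eb⟩ := hx2 η hη
      obtain ⟨c, hc, ec⟩ := hx2 ρ hρ
      have hab : a < b := by
        rw [← vl_lt_vl, ea, eb]
        exact hx1 _ _ hξη hη
      have hbc : b < c := by
        rw [← vl_lt_vl, eb, ec]
        exact hx1 _ _ hηρ hρ
      have h1 := hcol {a, b, c} (card_triple hab hbc) (htri a b c hab hbc H ha hb hc)
      rw [col_triple _ hab hbc, ea, eb, ec] at h1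
      by_contra hne
      rw [if_neg hne] at h1
      exact absurd h1 (by simp)
    refine core₂ (L := (Order.succ (aleph Θ)).ord) (Θ := Θ) (h := h) (g := g) hΘlim hcof h1 h2
      hg2 hx1 ?_
      (fun ξ η ρ h1 h2 h3 => (td_eq zero_ne_one (hF ξ η ρ h1 h2 h3)).2)
      (fun ξ η ρ h1 h2 h3 => (tc_eq_zero (td_eq zero_ne_one (hF ξ η ρ h1 h2 h3)).1).1)
      (fun ξ η ρ h1 h2 h3 => (tc_eq_zero (td_eq zero_ne_one (hF ξ η ρ h1 h2 h3)).1).2)
    intro ξ hξ
    obtain ⟨a, ha, ea⟩ := hx2 ξ hξ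
    rw [← ea]
    exact vl_lt a
  · intro H hH hcol
    obtain ⟨x, hx1, hx2⟩ := exists_increasing hH
    have hdec : StrictAnti fun n => h (vl (x (n + 1))) (vl (x 0)) := by
      intro m n hmn
      have hab : x 0 < x (m + 1) := hx1 (Nat.succ_pos m)
      have hbc : x (m + 1) < x (n + 1) := hx1 (by omega)
      have h1 := hcol {x 0, x (m + 1), x (n + 1)} (card_triple hab hbc)
        (htri _ _ _ hab hbc H (hx2 _) (hx2 _) (hx2 _))
      rw [col_triple _ hab hbc] at h1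
      split_ifs at h1 with h0
      rw [Option.some.injEq] at h1
      exact td_eq_one h1
    obtain ⟨_, ⟨n, rfl⟩, hmin⟩ := WellFounded.has_min (wellFounded_lt (α := Ordinal.{0}))
      (range fun n => h (vl (x (n + 1))) (vl (x 0))) ⟨_, ⟨0, rfl⟩⟩
    exact hmin _ ⟨n + 1, rfl⟩ (hdec (Nat.lt_succ_self n))
  · intro n hn1
    refine col_four _ n fun x y z w hn h1 h2 h3 h4 => ?_
    exact tc_four hg1 hn (td_eq hn1 h1).1 (td_eq hn1 h2).1 (td_eq hn1 h3).1 (td_eq hn1 h4).1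

end Pool.Agent.Results.MP_69a707_lc.OneInfiniteClass
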