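import Mathlib
import Pool.Agent.Lib.MP_69a707_lc.Defs
import Pool.Agent.Lib.MP_69a707_lc.Basic

/-!
# The negative triple relation from a weak form of square

Let `κ = ℵ_{ω_{ω+1}}`.  If `2^{ℵ_ω} = ℵ_{ω+1}` and there is a square sequence for `κ` (coherent at
least at the limit points of countable cofinality) then `κ⁺ ↛ (κ, (4)_{ℵ₀})³`.
-/

open Cardinal Set Pool.Agent.Lib.MP_69a707_lc

namespace Pool.Agent.Results.MP_69a707_lc.SquareNegative

/-- If `2^{ℵ_ω} = ℵ_{ω+1}` and `□_κ` (coherence only at points of countable cofinality) holds for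
`κ = ℵ_{ω_{ω+1}}` then `κ⁺ ↛ (κ, (4)_{ℵ₀})³`. -/
theorem result
    (hpow : (2 : Cardinal.{0}) ^ aleph Ordinal.omega0.{0} = aleph (Ordinal.omega0.{0} + 1))
    (hsq : SquareOmega (aleph (aleph (Ordinal.omega0.{0} + 1)).ord)) :
    ∃ α : Type, #α = aleph ((aleph (Ordinal.omega0 + 1)).ord + 1) ∧
      ∃ col : Finset α → Option ℕ,
        (∀ H : Set α, #H = aleph (aleph (Ordinal.omega0 + 1)).ord →
          ¬ ∀ s : Finset α, s.card = 3 → (↑s : Set α) ⊆ H → col s = none) ∧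
        (∀ n : ℕ, ∀ H : Finset α, H.card = 4 →
          ¬ ∀ s : Finset α, s.card = 3 → s ⊆ H → col s = some n) := by
  classical
  set Θ : Ordinal.{0} := (aleph (Ordinal.omega0.{0} + 1)).ord with hΘdef
  obtain ⟨hΘlim, hΘω, hΘreg⟩ := theta_facts
  rw [← hΘdef] at hΘlim hΘω hΘreg
  have hΘ0 : Θ ≠ 0 := hΘlim.bot_lt.ne'
  obtain ⟨g, hg1, hg2⟩ := exists_ordinalColouring hpow
  rw [← hΘdef] at hg2
  obtain ⟨C, hC⟩ := hsq.exists_csq (aleph0_le_aleph _)
  refine ⟨(Order.succ (aleph Θ)).ord.ToType, ?_, ?_⟩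
  · rw [mk_ord_toType, succ_aleph]
  refine ⟨Pool.Agent.Lib.MP_69a707_lc.col (tc g (lv C)), ?_, ?_⟩
  · intro H hH hcol
    obtain ⟨x, hx1, hx2⟩ := exists_enum H hH
    obtain ⟨d, hd, hdH⟩ := exists_bound (aleph0_le_aleph _) H hH
    have hF : ∀ ξ η ρ, ξ < η → η < ρ → ρ < (aleph Θ).ord → tc g (lv C) (x ξ) (x η) (x ρ) = 0 := by
      intro ξ η ρ hξη hηρ hρ
      have hη := hηρ.trans hρ
      obtain ⟨a, ha, ea⟩ := hx2 ξ (hξη.trans hη)
      obtain ⟨b, hb, eb⟩ := hx2 η hη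
      obtain ⟨c, hc, ec⟩ := hx2 ρ hρ
      have hab : a < b := by
        rw [← vl_lt_vl, ea, eb]
        exact hx1 _ _ hξη hη
      have hbc : b < c := by
        rw [← vl_lt_vl, eb, ec]
        exact hx1 _ _ hηρ hρ
      have h1 := hcol {a, b, c} (card_triple hab hbc) (by
        intro t ht
        simp only [Finset.coe_insert, Finset.coe_singleton, mem_insert_iff,
          mem_singleton_iff] at ht
        rcases ht with rfl | rfl | rfl
        · exact ha
        · exact hb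
        · exact hc)
      rw [col_triple _ hab hbc, ea, eb, ec] at h1
      by_contra hne
      rw [if_neg hne] at h1
      exact absurd h1 (by simp)
    refine core (L := (Order.succ (aleph Θ)).ord) (Θ := Θ) (h := lv C) (g := g) hΘlim hΘω hΘreg
      (fun c hc a => lv_lt hC hΘ0 c hc a) (fun c hc ζ _ => lv_small hC hΘ0 ζ c hc)
      (fun γ hγ hcof c hc hγc => lv_local hC γ hγ hcof c hc hγc) hg2 hd hx1 ?_
      (fun ξ η ρ h1 h2 h3 => (tc_eq_zero (hF ξ η ρ h1 h2 h3)).1)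
      (fun ξ η ρ h1 h2 h3 => (tc_eq_zero (hF ξ η ρ h1 h2 h3)).2)
    intro ξ hξ
    obtain ⟨a, ha, ea⟩ := hx2 ξ hξ
    rw [← ea]
    exact hdH a ha
  · exact fun n => col_four _ n fun x y z w hn h1 h2 h3 h4 => tc_four hg1 hn h1 h2 h3 h4

end Pool.Agent.Results.MP_69a707_lc.SquareNegative
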